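import Pool.Agent.Lib.MP_d38296_lc.Main

namespace Pool.Agent.Results.MP_d38296_lc.GoogolLinear

open MeasureTheory Pool.Agent.Lib.MP_d38296_lc

universe u

/-- For every `ε > 0` and every `n ≥ 7 / ε` there is an instance on the `n`-subsets of
`{1, ..., 2 n}` under which no randomized online cardinal algorithm wins with probability greater
than `1 / e + ε`. -/
theorem result (ε : ℝ) (hε : 0 < ε) (n : ℕ) (hn : 7 / ε ≤ (n : ℝ)) :
    ∃ D : Finset ℕ → ℝ, IsInstance n (2 * n) D ∧
      ∀ (Ω : Type u) [MeasurableSpace Ω] (μ : Measure Ω) [IsProbabilityMeasure μ]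
        (A : Ω → List ℕ → Bool), (∀ h : List ℕ, MeasurableSet {ω | A ω h = true}) →
          winProb μ A n (2 * n) D ≤ 1 / Real.exp 1 + ε := by
  have hn0 : (0 : ℝ) < n := lt_of_lt_of_le (by positivity) hn
  have hn1 : 1 ≤ n := by exact_mod_cast hn0
  refine ⟨DD n (2 * n), isInstance_DD hn1 (by omega), fun Ω _ μ _ A hA => ?_⟩
  refine (winProb_le_seven μ A hA hn1).trans ?_
  have : 7 / (n : ℝ) ≤ ε := by
    rw [div_le_iff₀ hn0]
    rw [div_le_iff₀ hε] at hn
    linarith
  linarith

end Pool.Agent.Results.MP_d38296_lc.GoogolLinear
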